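import Mathlib

/-!
# Similar tetrahedra in the integer grid: rotations help

A quaternion `q = a + b i + c j + d k` with integer entries gives an integer matrix with orthogonal
columns of equal length `a² + b² + c² + d²`. Hence the `N × N × N` grid contains about
`N ^ 3 * N ^ 2` copies of the corner simplex, and `f n` is at least of order `n ^ (5 / 3)`.
-/

set_option autoImplicit false

namespace Pool.Agent.Results.MP_36f34d_co.RotationsHelp

open Finset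

/-- Euclidean 3-space. -/
abbrev E3 : Type := EuclideanSpace ℝ (Fin 3)

/-- A tetrahedron: a set of four points which does not lie in a plane
`{x | ⟪u, x⟫ = t}`, `u ≠ 0`. -/
def IsTetrahedron (T : Finset E3) : Prop :=
  T.card = 4 ∧ ¬ ∃ (u : E3) (t : ℝ), u ≠ 0 ∧ ∀ x ∈ T, inner ℝ u x = t

/-- `T'` is the image of `T` under a similarity, i.e. a map which multiplies all distances by a
constant `l > 0`. -/
def Similar (T T' : Finset E3) : Prop :=
  ∃ (φ : E3 → E3) (l : ℝ), 0 < l ∧ (∀ x y, dist (φ x) (φ y) = l * dist x y) ∧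
    φ '' (T : Set E3) = T'

open Classical in
/-- The number of 4-element subsets of `P` which are tetrahedra similar to `T`. -/
noncomputable def copies (P T : Finset E3) : ℕ :=
  ((P.powersetCard 4).filter fun T' => IsTetrahedron T' ∧ Similar T T').card

/-- The maximum of `copies P T` over all sets `P` of `n` points and all tetrahedra `T`. -/
noncomputable def f (n : ℕ) : ℕ :=
  sSup {m | ∃ P T : Finset E3, P.card = n ∧ IsTetrahedron T ∧ m = copies P T}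

lemma bddAbove_copies (n : ℕ) :
    BddAbove {m | ∃ P T : Finset E3, P.card = n ∧ IsTetrahedron T ∧ m = copies P T} := by
  classical
  refine ⟨n.choose 4, ?_⟩
  rintro m ⟨P, T, hP, -, rfl⟩
  refine (card_filter_le _ _).trans ?_
  rw [card_powersetCard, hP]

lemma copies_le_f {n : ℕ} {P T : Finset E3} (hP : P.card = n) (hT : IsTetrahedron T) :
    copies P T ≤ f n :=
  le_csSup (bddAbove_copies n) ⟨P, T, hP, hT, rfl⟩

/-- The embedding of the integer points. -/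
noncomputable def emb : ℤ × ℤ × ℤ ↪ E3 where
  toFun p := !₂[(p.1 : ℝ), p.2.1, p.2.2]
  inj' := by
    rintro ⟨x, y, z⟩ ⟨x', y', z'⟩ h
    have h0 := congrArg (fun v : E3 => v 0) h
    have h1 := congrArg (fun v : E3 => v 1) h
    have h2 := congrArg (fun v : E3 => v 2) h
    simp at h0 h1 h2
    simp [h0, h1, h2]

/-- The four vertices. -/
def verts (x y z a b c d : ℤ) : Finset (ℤ × ℤ × ℤ) :=
  {(x, y, z),
   (x + (a ^ 2 + b ^ 2 - c ^ 2 - d ^ 2), y + 2 * (b * c + a * d), z + 2 * (b * d - a * c)),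
   (x + 2 * (b * c - a * d), y + (a ^ 2 - b ^ 2 + c ^ 2 - d ^ 2), z + 2 * (c * d + a * b)),
   (x + 2 * (b * d + a * c), y + 2 * (c * d - a * b), z + (a ^ 2 - b ^ 2 - c ^ 2 + d ^ 2))}

/-- A set of four points such that each coordinate is largest at its own point determines the
points. -/
lemma points_eq (x y z a1 b1 c1 a2 b2 c2 a3 b3 c3 x' y' z' a1' b1' c1' a2' b2' c2' a3' b3' c3' : ℤ)
    (h1 : 0 < a1 ∧ a2 < a1 ∧ a3 < a1) (h2 : 0 < b2 ∧ b1 < b2 ∧ b3 < b2)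
    (h3 : 0 < c3 ∧ c1 < c3 ∧ c2 < c3) (h1' : 0 < a1' ∧ a2' < a1' ∧ a3' < a1')
    (h2' : 0 < b2' ∧ b1' < b2' ∧ b3' < b2') (h3' : 0 < c3' ∧ c1' < c3' ∧ c2' < c3')
    (h : ({(x, y, z), (x + a1, y + b1, z + c1), (x + a2, y + b2, z + c2),
      (x + a3, y + b3, z + c3)} : Finset (ℤ × ℤ × ℤ)) =
      {(x', y', z'), (x' + a1', y' + b1', z' + c1'), (x' + a2', y' + b2', z' + c2'),
        (x' + a3', y' + b3', z' + c3')}) :
    x = x' ∧ y = y' ∧ z = z' ∧ a1 = a1' ∧ b1 = b1' ∧ c1 = c1' ∧ a2 = a2' ∧ b2 = b2' ∧ c2 = c2' ∧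
      a3 = a3' ∧ b3 = b3' ∧ c3 = c3' := by
  have m1 := h ▸ (show (x + a1, y + b1, z + c1) ∈ ({(x, y, z), (x + a1, y + b1, z + c1),
    (x + a2, y + b2, z + c2), (x + a3, y + b3, z + c3)} : Finset (ℤ × ℤ × ℤ)) by simp)
  have m2 := h ▸ (show (x + a2, y + b2, z + c2) ∈ ({(x, y, z), (x + a1, y + b1, z + c1),
    (x + a2, y + b2, z + c2), (x + a3, y + b3, z + c3)} : Finset (ℤ × ℤ × ℤ)) by simp)
  have m3 := h ▸ (show (x + a3, y + b3, z + c3) ∈ ({(x, y, z), (x + a1, y + b1, z + c1),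
    (x + a2, y + b2, z + c2), (x + a3, y + b3, z + c3)} : Finset (ℤ × ℤ × ℤ)) by simp)
  have m0 := h ▸ (show (x, y, z) ∈ ({(x, y, z), (x + a1, y + b1, z + c1),
    (x + a2, y + b2, z + c2), (x + a3, y + b3, z + c3)} : Finset (ℤ × ℤ × ℤ)) by simp)
  have m1' := h.symm ▸ (show (x' + a1', y' + b1', z' + c1') ∈ ({(x', y', z'),
    (x' + a1', y' + b1', z' + c1'), (x' + a2', y' + b2', z' + c2'),
    (x' + a3', y' + b3', z' + c3')} : Finset (ℤ × ℤ × ℤ)) by simp)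
  have m2' := h.symm ▸ (show (x' + a2', y' + b2', z' + c2') ∈ ({(x', y', z'),
    (x' + a1', y' + b1', z' + c1'), (x' + a2', y' + b2', z' + c2'),
    (x' + a3', y' + b3', z' + c3')} : Finset (ℤ × ℤ × ℤ)) by simp)
  have m3' := h.symm ▸ (show (x' + a3', y' + b3', z' + c3') ∈ ({(x', y', z'),
    (x' + a1', y' + b1', z' + c1'), (x' + a2', y' + b2', z' + c2'),
    (x' + a3', y' + b3', z' + c3')} : Finset (ℤ × ℤ × ℤ)) by simp)
  simp only [mem_insert, mem_singleton, Prod.mk.injEq] at m0 m1 m2 m3 m1' m2' m3'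
  have e1 : x + a1 = x' + a1' ∧ y + b1 = y' + b1' ∧ z + c1 = z' + c1' := by
    clear m0 m2 m3 m2' m3' h2 h3 h2' h3' h
    omega
  have e2 : x + a2 = x' + a2' ∧ y + b2 = y' + b2' ∧ z + c2 = z' + c2' := by
    clear m0 m1 m3 m1' m3' h1 h3 h1' h3' h e1
    omega
  have e3 : x + a3 = x' + a3' ∧ y + b3 = y' + b3' ∧ z + c3 = z' + c3' := by
    clear m0 m1 m2 m1' m2' h1 h2 h1' h2' h e1 e2
    omega
  clear m1 m2 m3 m1' m2' m3' h
  omega

/-- The bounds for the entries of the matrix. -/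
lemma entries {M a b c d : ℤ} (ha : 4 * M < a) (ha' : a ≤ 5 * M) (hb : 0 < b) (hb' : b ≤ M)
    (hc : 0 < c) (hc' : c ≤ M) (hd : 0 < d) (hd' : d ≤ M) :
    (14 * M ^ 2 < a ^ 2 + b ^ 2 - c ^ 2 - d ^ 2 ∧ a ^ 2 + b ^ 2 - c ^ 2 - d ^ 2 < 28 * M ^ 2) ∧
    (14 * M ^ 2 < a ^ 2 - b ^ 2 + c ^ 2 - d ^ 2 ∧ a ^ 2 - b ^ 2 + c ^ 2 - d ^ 2 < 28 * M ^ 2) ∧
    (14 * M ^ 2 < a ^ 2 - b ^ 2 - c ^ 2 + d ^ 2 ∧ a ^ 2 - b ^ 2 - c ^ 2 + d ^ 2 < 28 * M ^ 2) ∧
    (-(12 * M ^ 2) ≤ 2 * (b * c + a * d) ∧ 2 * (b * c + a * d) ≤ 12 * M ^ 2) ∧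
    (-(12 * M ^ 2) ≤ 2 * (b * d - a * c) ∧ 2 * (b * d - a * c) ≤ 12 * M ^ 2) ∧
    (-(12 * M ^ 2) ≤ 2 * (b * c - a * d) ∧ 2 * (b * c - a * d) ≤ 12 * M ^ 2) ∧
    (-(12 * M ^ 2) ≤ 2 * (c * d + a * b) ∧ 2 * (c * d + a * b) ≤ 12 * M ^ 2) ∧
    (-(12 * M ^ 2) ≤ 2 * (b * d + a * c) ∧ 2 * (b * d + a * c) ≤ 12 * M ^ 2) ∧
    (-(12 * M ^ 2) ≤ 2 * (c * d - a * b) ∧ 2 * (c * d - a * b) ≤ 12 * M ^ 2) := by
  have hM : 0 < M := lt_of_lt_of_le hb hb'
  have a1 : 16 * M ^ 2 < a ^ 2 := by nlinarith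
  have a2 : a ^ 2 ≤ 25 * M ^ 2 := by nlinarith
  have b2 : b ^ 2 ≤ M ^ 2 := by nlinarith
  have c2 : c ^ 2 ≤ M ^ 2 := by nlinarith
  have d2 : d ^ 2 ≤ M ^ 2 := by nlinarith
  have b0 : 0 < b ^ 2 := by positivity
  have c0 : 0 < c ^ 2 := by positivity
  have d0 : 0 < d ^ 2 := by positivity
  have ha0 : 0 < a := by linarith
  have ab : a * b ≤ 5 * M ^ 2 := by nlinarith
  have ac : a * c ≤ 5 * M ^ 2 := by nlinarith
  have ad : a * d ≤ 5 * M ^ 2 := by nlinarith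
  have bc : b * c ≤ M ^ 2 := by nlinarith
  have bd : b * d ≤ M ^ 2 := by nlinarith
  have cd : c * d ≤ M ^ 2 := by nlinarith
  have ab0 : 0 < a * b := by positivity
  have ac0 : 0 < a * c := by positivity
  have ad0 : 0 < a * d := by positivity
  have bc0 : 0 < b * c := by positivity
  have bd0 : 0 < b * d := by positivity
  have cd0 : 0 < c * d := by positivity
  have hM2 : 0 < M ^ 2 := by positivity
  refine ⟨⟨?_, ?_⟩, ⟨?_, ?_⟩, ⟨?_, ?_⟩, ⟨?_, ?_⟩, ⟨?_, ?_⟩, ⟨?_, ?_⟩, ⟨?_, ?_⟩, ⟨?_, ?_⟩, ⟨?_, ?_⟩⟩ <;>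
    linarith

/-- The quaternion is determined by the matrix. -/
lemma quat_eq {a b c d a' b' c' d' : ℤ} (ha : 0 < a) (hb : 0 < b) (hc : 0 < c) (hd : 0 < d)
    (ha' : 0 < a') (hb' : 0 < b') (hc' : 0 < c') (hd' : 0 < d')
    (h0 : 3 * a ^ 2 - b ^ 2 - c ^ 2 - d ^ 2 = 3 * a' ^ 2 - b' ^ 2 - c' ^ 2 - d' ^ 2)
    (h1 : a * b = a' * b') (h2 : a * c = a' * c') (h3 : a * d = a' * d') :
    a = a' ∧ b = b' ∧ c = c' ∧ d = d' := by
  have key : ∀ {a b c d a' b' c' d' : ℤ}, 0 < a → 0 < b → 0 < c → 0 < d → 0 < a' → 0 < b' →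
      0 < c' → 0 < d' → 3 * a ^ 2 - b ^ 2 - c ^ 2 - d ^ 2 = 3 * a' ^ 2 - b' ^ 2 - c' ^ 2 - d' ^ 2 →
      a * b = a' * b' → a * c = a' * c' → a * d = a' * d' → ¬ a < a' := by
    intro a b c d a' b' c' d' ha hb hc hd ha' hb' hc' hd' h0 h1 h2 h3 hlt
    have hb2 : b' < b := by
      by_contra hcon
      push Not at hcon
      nlinarith
    have hc2 : c' < c := by
      by_contra hcon
      push Not at hcon
      nlinarith
    have hd2 : d' < d := by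
      by_contra hcon
      push Not at hcon
      nlinarith
    nlinarith
  have haa : a = a' := by
    rcases lt_trichotomy a a' with h | h | h
    · exact absurd h (key ha hb hc hd ha' hb' hc' hd' h0 h1 h2 h3)
    · exact h
    · exact absurd h (key ha' hb' hc' hd' ha hb hc hd h0.symm h1.symm h2.symm h3.symm)
  subst haa
  exact ⟨rfl, mul_left_cancel₀ ha.ne' h1, mul_left_cancel₀ ha.ne' h2, mul_left_cancel₀ ha.ne' h3⟩

lemma verts_injective {M x y z a b c d x' y' z' a' b' c' d' : ℤ}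
    (ha : 4 * M < a ∧ a ≤ 5 * M) (hb : 0 < b ∧ b ≤ M) (hc : 0 < c ∧ c ≤ M) (hd : 0 < d ∧ d ≤ M)
    (ha' : 4 * M < a' ∧ a' ≤ 5 * M) (hb' : 0 < b' ∧ b' ≤ M) (hc' : 0 < c' ∧ c' ≤ M)
    (hd' : 0 < d' ∧ d' ≤ M) (h : verts x y z a b c d = verts x' y' z' a' b' c' d') :
    x = x' ∧ y = y' ∧ z = z' ∧ a = a' ∧ b = b' ∧ c = c' ∧ d = d' := by
  have hM : 0 < M := lt_of_lt_of_le hb.1 hb.2
  have hM2 : 0 < M ^ 2 := by positivity
  obtain ⟨e1, e2, e3, e4, e5, e6, e7, e8, e9⟩ :=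
    entries ha.1 ha.2 hb.1 hb.2 hc.1 hc.2 hd.1 hd.2
  obtain ⟨f1, f2, f3, f4, f5, f6, f7, f8, f9⟩ :=
    entries ha'.1 ha'.2 hb'.1 hb'.2 hc'.1 hc'.2 hd'.1 hd'.2
  obtain ⟨g1, g2, g3, g4, g5, g6, g7, g8, g9, g10, g11, g12⟩ := points_eq _ _ _ _ _ _ _ _ _ _ _ _
    _ _ _ _ _ _ _ _ _ _ _ _ (by constructor; linarith; constructor <;> linarith)
    (by constructor; linarith; constructor <;> linarith)
    (by constructor; linarith; constructor <;> linarith)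
    (by constructor; linarith; constructor <;> linarith)
    (by constructor; linarith; constructor <;> linarith)
    (by constructor; linarith; constructor <;> linarith) h
  have q := quat_eq (by linarith [ha.1] : 0 < a) hb.1 hc.1 hd.1 (by linarith [ha'.1] : 0 < a')
    hb'.1 hc'.1 hd'.1 (by linarith) (by linarith) (by linarith) (by linarith)
  exact ⟨g1, g2, g3, q.1, q.2.1, q.2.2.1, q.2.2.2⟩


lemma card_four {x y z a1 b1 c1 a2 b2 c2 a3 b3 c3 : ℤ}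
    (h1 : 0 < a1 ∧ a2 < a1 ∧ a3 < a1) (h2 : 0 < b2 ∧ b1 < b2 ∧ b3 < b2)
    (h3 : 0 < c3 ∧ c1 < c3 ∧ c2 < c3) :
    ({(x, y, z), (x + a1, y + b1, z + c1), (x + a2, y + b2, z + c2),
      (x + a3, y + b3, z + c3)} : Finset (ℤ × ℤ × ℤ)).card = 4 := by
  rw [card_insert_of_notMem, card_insert_of_notMem, card_insert_of_notMem, card_singleton]
  · simp only [mem_singleton, Prod.mk.injEq]
    omega
  · simp only [mem_insert, mem_singleton, Prod.mk.injEq]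
    omega
  · simp only [mem_insert, mem_singleton, Prod.mk.injEq]
    omega

/-- The corner simplex. -/
noncomputable def corner : Finset E3 := (verts 0 0 0 1 0 0 0).map emb

lemma emb_apply (p : ℤ × ℤ × ℤ) : emb p = !₂[(p.1 : ℝ), p.2.1, p.2.2] := rfl

lemma inner_emb (u : E3) (p : ℤ × ℤ × ℤ) :
    inner ℝ u (emb p) = u 0 * p.1 + u 1 * p.2.1 + u 2 * p.2.2 := by
  rw [PiLp.inner_apply, Fin.sum_univ_three, emb_apply]
  simp
  ring

/-- The sets of vertices are tetrahedra. -/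
lemma isTetrahedron_verts {x y z a b c d : ℤ} (ha : 0 < a) (hcard : (verts x y z a b c d).card = 4) :
    IsTetrahedron ((verts x y z a b c d).map emb) := by
  refine ⟨by rw [card_map, hcard], ?_⟩
  rintro ⟨u, t, hu, h⟩
  have hv : ∀ p ∈ verts x y z a b c d, u 0 * (p.1 : ℝ) + u 1 * p.2.1 + u 2 * p.2.2 = t := by
    intro p hp
    rw [← inner_emb]
    exact h _ (mem_map_of_mem emb hp)
  have h0 := hv (x, y, z) (by simp [verts])
  have h1 := hv (x + (a ^ 2 + b ^ 2 - c ^ 2 - d ^ 2), y + 2 * (b * c + a * d),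
    z + 2 * (b * d - a * c)) (by simp [verts])
  have h2 := hv (x + 2 * (b * c - a * d), y + (a ^ 2 - b ^ 2 + c ^ 2 - d ^ 2),
    z + 2 * (c * d + a * b)) (by simp [verts])
  have h3 := hv (x + 2 * (b * d + a * c), y + 2 * (c * d - a * b),
    z + (a ^ 2 - b ^ 2 - c ^ 2 + d ^ 2)) (by simp [verts])
  push_cast at h0 h1 h2 h3
  have ha' : (0 : ℝ) < a := by exact_mod_cast ha
  have hl : (0 : ℝ) < ((a : ℝ) ^ 2 + b ^ 2 + c ^ 2 + d ^ 2) ^ 2 := by positivity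
  have k0 : ((a : ℝ) ^ 2 + b ^ 2 + c ^ 2 + d ^ 2) ^ 2 * u 0 = 0 := by
    linear_combination ((a : ℝ) ^ 2 + b ^ 2 - c ^ 2 - d ^ 2) * (h1 - h0) +
      (2 * (b * c - a * d) : ℝ) * (h2 - h0) + (2 * (b * d + a * c) : ℝ) * (h3 - h0)
  have k1 : ((a : ℝ) ^ 2 + b ^ 2 + c ^ 2 + d ^ 2) ^ 2 * u 1 = 0 := by
    linear_combination (2 * (b * c + a * d) : ℝ) * (h1 - h0) +
      ((a : ℝ) ^ 2 - b ^ 2 + c ^ 2 - d ^ 2) * (h2 - h0) + (2 * (c * d - a * b) : ℝ) * (h3 - h0)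
  have k2 : ((a : ℝ) ^ 2 + b ^ 2 + c ^ 2 + d ^ 2) ^ 2 * u 2 = 0 := by
    linear_combination (2 * (b * d - a * c) : ℝ) * (h1 - h0) +
      (2 * (c * d + a * b) : ℝ) * (h2 - h0) + ((a : ℝ) ^ 2 - b ^ 2 - c ^ 2 + d ^ 2) * (h3 - h0)
  have z0 := (mul_eq_zero.1 k0).resolve_left hl.ne'
  have z1 := (mul_eq_zero.1 k1).resolve_left hl.ne'
  have z2 := (mul_eq_zero.1 k2).resolve_left hl.ne'
  apply hu
  ext i
  fin_cases i
  · exact z0
  · exact z1
  · exact z2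

/-- The sets of vertices are similar to the corner simplex. -/
lemma similar_verts {x y z a b c d : ℤ} (ha : 0 < a) :
    Similar corner ((verts x y z a b c d).map emb) := by
  have ha' : (0 : ℝ) < a := by exact_mod_cast ha
  have hl : (0 : ℝ) < (a : ℝ) ^ 2 + b ^ 2 + c ^ 2 + d ^ 2 := by positivity
  refine ⟨fun v => !₂[(x : ℝ) + ((a : ℝ) ^ 2 + b ^ 2 - c ^ 2 - d ^ 2) * v 0 +
      2 * (b * c - a * d) * v 1 + 2 * (b * d + a * c) * v 2,
    (y : ℝ) + 2 * (b * c + a * d) * v 0 + ((a : ℝ) ^ 2 - b ^ 2 + c ^ 2 - d ^ 2) * v 1 +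
      2 * (c * d - a * b) * v 2,
    (z : ℝ) + 2 * (b * d - a * c) * v 0 + 2 * (c * d + a * b) * v 1 +
      ((a : ℝ) ^ 2 - b ^ 2 - c ^ 2 + d ^ 2) * v 2],
    (a : ℝ) ^ 2 + b ^ 2 + c ^ 2 + d ^ 2, hl, ?_, ?_⟩
  · intro v w
    rw [EuclideanSpace.dist_eq, EuclideanSpace.dist_eq, Fin.sum_univ_three, Fin.sum_univ_three]
    conv_rhs => rw [← Real.sqrt_sq hl.le, ← Real.sqrt_mul (sq_nonneg _)]
    congr 1
    simp only [Real.dist_eq, sq_abs, Matrix.cons_val_zero, Matrix.cons_val_one, Matrix.cons_val]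
    ring
  · ext w
    simp only [corner, coe_map, Set.mem_image, mem_coe, verts, mem_insert, mem_singleton]
    constructor
    · rintro ⟨v, ⟨p, hp, rfl⟩, rfl⟩
      rcases hp with rfl | rfl | rfl | rfl
      · refine ⟨(x, y, z), Or.inl rfl, ?_⟩
        rw [emb_apply, emb_apply]
        ext i
        fin_cases i <;> simp
      · refine ⟨_, Or.inr (Or.inl rfl), ?_⟩
        rw [emb_apply, emb_apply]
        ext i
        fin_cases i <;> simp
      · refine ⟨_, Or.inr (Or.inr (Or.inl rfl)), ?_⟩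
        rw [emb_apply, emb_apply]
        ext i
        fin_cases i <;> simp
      · refine ⟨_, Or.inr (Or.inr (Or.inr rfl)), ?_⟩
        rw [emb_apply, emb_apply]
        ext i
        fin_cases i <;> simp
    · rintro ⟨p, hp, rfl⟩
      rcases hp with rfl | rfl | rfl | rfl
      · refine ⟨_, ⟨_, Or.inl rfl, rfl⟩, ?_⟩
        rw [emb_apply, emb_apply]
        ext i
        fin_cases i <;> simp
      · refine ⟨_, ⟨_, Or.inr (Or.inl rfl), rfl⟩, ?_⟩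
        rw [emb_apply, emb_apply]
        ext i
        fin_cases i <;> simp
      · refine ⟨_, ⟨_, Or.inr (Or.inr (Or.inl rfl)), rfl⟩, ?_⟩
        rw [emb_apply, emb_apply]
        ext i
        fin_cases i <;> simp
      · refine ⟨_, ⟨_, Or.inr (Or.inr (Or.inr rfl)), rfl⟩, ?_⟩
        rw [emb_apply, emb_apply]
        ext i
        fin_cases i <;> simp

lemma isTetrahedron_corner : IsTetrahedron corner :=
  isTetrahedron_verts one_pos (by decide)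


/-- The grid. -/
noncomputable def box (M : ℕ) : Finset (ℤ × ℤ × ℤ) :=
  Ico 0 (64 * (M : ℤ) ^ 2) ×ˢ Ico 0 (64 * (M : ℤ) ^ 2) ×ˢ Ico 0 (64 * (M : ℤ) ^ 2)

lemma card_box (M : ℕ) : (box M).card = (8 * M) ^ 6 := by
  rw [box, card_product, card_product, Int.card_Ico]
  have : (64 * (M : ℤ) ^ 2 - 0).toNat = 64 * M ^ 2 := by
    rw [sub_zero]
    exact_mod_cast Int.toNat_natCast (64 * M ^ 2)
  rw [this]
  ring

/-- The parameters of the copies. -/
noncomputable def params (M : ℕ) : Finset (ℤ × ℤ × ℤ × ℤ × ℤ × ℤ × ℤ) :=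
  Ico (28 * (M : ℤ) ^ 2) (29 * (M : ℤ) ^ 2) ×ˢ Ico (28 * (M : ℤ) ^ 2) (29 * (M : ℤ) ^ 2) ×ˢ
    Ico (28 * (M : ℤ) ^ 2) (29 * (M : ℤ) ^ 2) ×ˢ Ioc (4 * (M : ℤ)) (5 * M) ×ˢ
    Ioc (0 : ℤ) M ×ˢ Ioc (0 : ℤ) M ×ˢ Ioc (0 : ℤ) M

lemma card_params (M : ℕ) : (params M).card = M ^ 10 := by
  simp only [params, card_product, Int.card_Ico, Int.card_Ioc]
  have h1 : (29 * (M : ℤ) ^ 2 - 28 * (M : ℤ) ^ 2).toNat = M ^ 2 := by
    rw [show 29 * (M : ℤ) ^ 2 - 28 * (M : ℤ) ^ 2 = ((M ^ 2 : ℕ) : ℤ) by push_cast; ring]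
    exact Int.toNat_natCast _
  have h2 : (5 * (M : ℤ) - 4 * M).toNat = M := by
    rw [show 5 * (M : ℤ) - 4 * M = ((M : ℕ) : ℤ) by ring]
    exact Int.toNat_natCast _
  have h3 : ((M : ℤ) - 0).toNat = M := by simp
  rw [h1, h2, h3]
  ring

lemma le_copies (M : ℕ) (P : Finset E3) (hP : (box M).map emb ⊆ P) :
    M ^ 10 ≤ copies P corner := by
  classical
  rw [← card_params M]
  unfold copies
  apply card_le_card_of_injOn
    (fun t => (verts t.1 t.2.1 t.2.2.1 t.2.2.2.1 t.2.2.2.2.1 t.2.2.2.2.2.1 t.2.2.2.2.2.2).map emb)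
  · rintro ⟨x, y, z, a, b, c, d⟩ ht
    simp only [params, coe_product, Set.mem_prod, mem_coe, mem_Ico, mem_Ioc] at ht
    obtain ⟨hx, hy, hz, ha, hb, hc, hd⟩ := ht
    obtain ⟨e1, e2, e3, e4, e5, e6, e7, e8, e9⟩ :=
      entries ha.1 ha.2 hb.1 hb.2 hc.1 hc.2 hd.1 hd.2
    have hM2 : 0 < (M : ℤ) ^ 2 := by linarith [hx.1, hx.2]
    have ha0 : 0 < a := by
      have : 0 < (M : ℤ) := by linarith [hb.1, hb.2]
      linarith
    have hcard : (verts x y z a b c d).card = 4 := by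
      apply card_four
      · constructor; linarith; constructor <;> linarith
      · constructor; linarith; constructor <;> linarith
      · constructor; linarith; constructor <;> linarith
    simp only [coe_filter, mem_powersetCard, Set.mem_ofPred_eq]
    refine ⟨⟨?_, by rw [card_map, hcard]⟩, isTetrahedron_verts ha0 hcard, similar_verts ha0⟩
    refine Subset.trans (map_subset_map.2 ?_) hP
    intro p hp
    simp only [verts, mem_insert, mem_singleton] at hp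
    simp only [box, mem_product, mem_Ico]
    rcases hp with rfl | rfl | rfl | rfl
    · refine ⟨⟨?_, ?_⟩, ⟨?_, ?_⟩, ⟨?_, ?_⟩⟩ <;> simp only <;> linarith
    · refine ⟨⟨?_, ?_⟩, ⟨?_, ?_⟩, ⟨?_, ?_⟩⟩ <;> simp only <;> linarith
    · refine ⟨⟨?_, ?_⟩, ⟨?_, ?_⟩, ⟨?_, ?_⟩⟩ <;> simp only <;> linarith
    · refine ⟨⟨?_, ?_⟩, ⟨?_, ?_⟩, ⟨?_, ?_⟩⟩ <;> simp only <;> linarith
  · rintro ⟨x, y, z, a, b, c, d⟩ ht ⟨x', y', z', a', b', c', d'⟩ ht' h
    simp only [params, coe_product, Set.mem_prod, mem_coe, mem_Ico, mem_Ioc] at ht ht'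
    obtain ⟨-, -, -, ha, hb, hc, hd⟩ := ht
    obtain ⟨-, -, -, ha', hb', hc', hd'⟩ := ht'
    have h2 := map_injective emb h
    obtain ⟨g1, g2, g3, g4, g5, g6, g7⟩ := verts_injective ha hb hc hd ha' hb' hc' hd' h2
    simp only at g1 g2 g3
    rw [g1, g2, g3, g4, g5, g6, g7]

lemma one_le_copies (P : Finset E3) (hP : corner ⊆ P) : 1 ≤ copies P corner := by
  classical
  unfold copies
  rw [Nat.succ_le_iff, card_pos]
  refine ⟨corner, ?_⟩
  rw [mem_filter, mem_powersetCard]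
  exact ⟨⟨hP, isTetrahedron_corner.1⟩, isTetrahedron_corner, similar_verts one_pos⟩

/-- **The number of similar tetrahedra is at least of order `n ^ (5 / 3)`.** -/
theorem result : ∃ c : ℝ, 0 < c ∧ ∀ n : ℕ, 4 ≤ n → c * (n : ℝ) ^ (5 / 3 : ℝ) ≤ f n := by
  refine ⟨(1 / 16) ^ 10, by positivity, fun n hn => ?_⟩
  obtain ⟨M, hM1, hM2⟩ : ∃ M : ℕ, (8 * M) ^ 6 ≤ n ∧ n < (8 * (M + 1)) ^ 6 := by
    have hex : ∃ k : ℕ, n < (8 * k) ^ 6 := by
      refine ⟨n, ?_⟩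
      calc n < 8 * n := by omega
        _ ≤ (8 * n) ^ 6 := Nat.le_self_pow (by norm_num) _
    have hk := Nat.find_spec hex
    rcases Nat.eq_zero_or_pos (Nat.find hex) with h0 | hpos
    · rw [h0] at hk
      simp at hk
    · refine ⟨Nat.find hex - 1, ?_, ?_⟩
      · have := Nat.find_min hex (m := Nat.find hex - 1) (by omega)
        omega
      · rw [show Nat.find hex - 1 + 1 = Nat.find hex by omega]
        exact hk
  have hrpow : ∀ x : ℝ, 0 ≤ x → (x ^ 6) ^ (5 / 3 : ℝ) = x ^ 10 := by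
    intro x hx
    rw [← Real.rpow_natCast x 6, ← Real.rpow_mul hx, ← Real.rpow_natCast x 10]
    norm_num
  rcases Nat.eq_zero_or_pos M with hM | hM
  · subst hM
    obtain ⟨P, hP1, hP2⟩ := Infinite.exists_superset_card_eq corner n
      (by rw [isTetrahedron_corner.1]; exact hn)
    have h1 : 1 ≤ f n := (one_le_copies P hP1).trans (copies_le_f hP2 isTetrahedron_corner)
    have h2 : (n : ℝ) ^ (5 / 3 : ℝ) ≤ ((8 : ℝ) ^ 6) ^ (5 / 3 : ℝ) := by
      apply Real.rpow_le_rpow (Nat.cast_nonneg _) _ (by norm_num)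
      have : (n : ℝ) < ((8 * (0 + 1)) ^ 6 : ℕ) := by exact_mod_cast hM2
      norm_num at this ⊢
      linarith
    rw [hrpow 8 (by norm_num)] at h2
    calc (1 / 16 : ℝ) ^ 10 * (n : ℝ) ^ (5 / 3 : ℝ) ≤ (1 / 16 : ℝ) ^ 10 * 8 ^ 10 := by gcongr
      _ ≤ 1 := by norm_num
      _ ≤ f n := by exact_mod_cast h1
  · obtain ⟨P, hP1, hP2⟩ := Infinite.exists_superset_card_eq ((box M).map emb) n
      (by rw [card_map, card_box]; exact hM1)
    have h1 : M ^ 10 ≤ f n := (le_copies M P hP1).trans (copies_le_f hP2 isTetrahedron_corner)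
    have h2 : (n : ℝ) ^ (5 / 3 : ℝ) ≤ ((16 * M : ℝ) ^ 6) ^ (5 / 3 : ℝ) := by
      apply Real.rpow_le_rpow (Nat.cast_nonneg _) _ (by norm_num)
      have h3 : (8 * (M + 1)) ^ 6 ≤ (16 * M) ^ 6 := Nat.pow_le_pow_left (by omega) 6
      exact_mod_cast (hM2.trans_le h3).le
    rw [hrpow (16 * M) (by positivity)] at h2
    calc (1 / 16 : ℝ) ^ 10 * (n : ℝ) ^ (5 / 3 : ℝ) ≤ (1 / 16 : ℝ) ^ 10 * (16 * M) ^ 10 := by gcongr
      _ = (M : ℝ) ^ 10 := by rw [mul_pow]; ring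
      _ ≤ f n := by exact_mod_cast h1

end Pool.Agent.Results.MP_36f34d_co.RotationsHelp
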